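import Pool.Agent.H699.MW.Defs

set_option autoImplicit false

open MeasureTheory Finset
open scoped Classical

namespace Pool.Agent.H17.MW.CONT

open Pool.Agent.H699.MW

/-- small intervals have small mass -/
theorem modl (hLPR : S_LPR) (hMOD : S_MOD) (μ : Measure ℝ) (a b : ℝ) (hg : Good μ a b) (d n : ℕ)
    (ε η : ℝ) (hε : 0 ≤ ε) (hη : 0 ≤ η) (hμ : ∀ z, μ.real (Set.Icc z (z + η)) ≤ ε)
    (hn : 1 ≤ n) (T : RT) (hT : T.Wd d) (s : Bool) (x : ℝ) (hx : 0 ≤ x) :
    (law μ b n T s).real (Set.Ioc x (x + η)) ≤ d * ε := by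
  obtain ⟨n', rfl⟩ : ∃ n', n = n' + 1 := ⟨n - 1, by omega⟩
  cases T with
  | node k c =>
    have hk : k ≤ d := hT.1
    have hpr : IsProbabilityMeasure μ := ⟨hg.prob⟩
    have h := hMOD μ k (fun i => law μ b n' (c i) (!s)) x (x + η) ε hpr
      (fun i => (hLPR μ a b hg n' (c i)).1 (!s)) hx (by linarith) (fun z => by
        rw [add_sub_cancel_left]; exact hμ z)
    have h2 : (k : ℝ) * ε ≤ d * ε := mul_le_mul_of_nonneg_right (by exact_mod_cast hk) hε
    exact h.trans h2

theorem t_CON : S_SLP → S_LPR → S_MOD → S_UNI → S_REB → S_PRE → S_CON := by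
  intro hSLP hLPR hMOD hUNI hREB _ μ a b hg d
  obtain ⟨M1, N, hM1⟩ := hSLP μ a b hg d
  obtain ⟨M2, hM2⟩ := hREB μ a b hg d
  refine ⟨max (max M1 M2) 1, N, fun S₀ hS₀ => ?_⟩
  obtain ⟨q1, hq1, hs1⟩ := hM1 S₀ hS₀
  obtain ⟨q2, hq2, hs2⟩ := hM2 (S₀ / 4) (by linarith)
  have hd0 : (0 : ℝ) < (d : ℝ) + 1 := by positivity
  have hmin : 0 < min q1 q2 := lt_min hq1 hq2
  obtain ⟨ε, hεd⟩ : ∃ ε : ℝ, ε = min q1 q2 / ((d : ℝ) + 1) := ⟨_, rfl⟩
  have hε : 0 < ε := by rw [hεd]; exact div_pos hmin hd0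
  have hdε : (d : ℝ) * ε ≤ min q1 q2 := by
    have h : ((d : ℝ) + 1) * ε = min q1 q2 := by
      rw [hεd, mul_div_cancel₀ _ hd0.ne']
    linarith
  obtain ⟨η', hη', hu⟩ := (hUNI μ a b hg).1 ε hε
  obtain ⟨η, hηd⟩ : ∃ η : ℝ, η = min η' (S₀ / 2) := ⟨_, rfl⟩
  have hη : 0 < η := by rw [hηd]; exact lt_min hη' (by linarith)
  have hη1 : η ≤ η' := by rw [hηd]; exact min_le_left _ _
  have hη2 : η ≤ S₀ / 2 := by rw [hηd]; exact min_le_right _ _
  have hpr : IsProbabilityMeasure μ := ⟨hg.prob⟩
  have hu' : ∀ z, μ.real (Set.Icc z (z + η)) ≤ ε := fun z =>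
    (measureReal_mono (Set.Icc_subset_Icc_right (by linarith)) (measure_ne_top _ _)).trans (hu z)
  refine ⟨η, hη, by linarith, fun m hm S hS hDom T hT t ht => ?_⟩
  have hm1 : M1 ≤ m := le_trans (le_trans (le_max_left _ _) (le_max_left _ _)) hm
  have hm2 : M2 ≤ m := le_trans (le_trans (le_max_right _ _) (le_max_left _ _)) hm
  have hm3 : 1 ≤ m := le_trans (le_max_right _ _) hm
  obtain ⟨hprob, hlo0, hlohi, hhib, hlo, hhi⟩ := hLPR μ a b hg (m + N) T
  have hpt : IsProbabilityMeasure (law μ b (m + N) T true) := hprob true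
  have hpf : IsProbabilityMeasure (law μ b (m + N) T false) := hprob false
  have hcut : ∀ x : ℝ, 0 ≤ x → (law μ b (m + N) T true).real (Set.Ioi x) ≤
      d * ε + (law μ b (m + N) T true).real (Set.Ioi (x + η)) := by
    intro x hx
    have h1 := modl hLPR hMOD μ a b hg d (m + N) ε η hε.le hη.le hu' (by omega) T hT true x hx
    have h2 : Set.Ioi x ⊆ Set.Ioc x (x + η) ∪ Set.Ioi (x + η) := by
      intro y hy
      rcases le_or_gt y (x + η) with h | h
      · exact Or.inl ⟨hy, h⟩
      · exact Or.inr h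
    have h3 := (measureReal_mono h2 (measure_ne_top (law μ b (m + N) T true) _)).trans
      (measureReal_union_le _ _)
    linarith
  have hzero : ∀ x : ℝ, ext a b (m + N) T true ≤ x →
      (law μ b (m + N) T true).real (Set.Ioi x) = 0 := by
    intro x hx
    have h1 : (law μ b (m + N) T true) (Set.Ioi x) = 0 :=
      measure_mono_null (Set.Ioi_subset_Ioi hx) (hhi true)
    rw [measureReal_def, h1, ENNReal.toReal_zero]
  have hx0 : 0 ≤ t + (S - η) := by linarith
  have hxη : t + (S - η) + η = t + S := by ring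
  rcases lt_or_ge t (ext a b (m + N) T false) with h1 | h1
  · -- the lower message is larger than `t`
    have h2 : (law μ b (m + N) T false).real (Set.Ioi t) = 1 := by
      have h3 : (law μ b (m + N) T false) (Set.Ioi t)ᶜ = 0 := by
        refine measure_mono_null ?_ (hlo false)
        intro y hy
        rw [Set.mem_compl_iff, Set.mem_Ioi, not_lt] at hy
        exact lt_of_le_of_lt hy h1
      have h4 : (law μ b (m + N) T false) (Set.Ioi t) = 1 := (prob_compl_eq_zero_iff measurableSet_Ioi).1 h3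
      rw [measureReal_def, h4, ENNReal.toReal_one]
    rw [h2]
    exact measureReal_le_one
  · rcases le_or_gt (t + S) (ext a b (m + N) T true) with h2 | h2
    · have h3 : ¬ slack S (law μ b (m + N) T false) (law μ b (m + N) T true) t < q1 :=
        fun h => hs1 m hm1 S hS hDom T hT t ⟨h1, h2, h⟩
      have h4 := not_lt.1 h3
      unfold slack at h4
      have h5 := hcut _ hx0
      rw [hxη] at h5
      have h6 : (d : ℝ) * ε ≤ q1 := hdε.trans (min_le_left _ _)
      linarith
    · rcases le_or_gt t (ext a b (m + N) T true - S₀ / 2) with h3 | h3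
      · have h5 := hcut _ hx0
        rw [hxη, hzero (t + S) h2.le, add_zero] at h5
        have h6 : (d : ℝ) * ε ≤ q2 := hdε.trans (min_le_right _ _)
        have h7 := (hs2 (m + N) (by omega) T hT).2
        have h8 : (law μ b (m + N) T false).real (Set.Ici (ext a b (m + N) T true - S₀ / 4)) ≤
            (law μ b (m + N) T false).real (Set.Ioi t) := by
          refine measureReal_mono ?_ (measure_ne_top _ _)
          intro y hy
          rw [Set.mem_Ici] at hy
          rw [Set.mem_Ioi]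
          linarith
        linarith
      · rw [hzero _ (by linarith)]
        exact measureReal_nonneg

end Pool.Agent.H17.MW.CONT
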